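import Pool.Agent.Lib.MP_8613e3_im.Sub

/-!
# Optimal drawings of complete graphs contain only rigid drawings

Let `D₀` be a drawing of `K_p` in a Hausdorff space `S` (in particular in a surface). Suppose that for all `i ≠ j` there
is a simple arc `A i j = A j i` from the vertex `i` to the vertex `j` contained in the union of the edges of `D₀`, and
that any two of these arcs have only finitely many common points. Let `t` be the number of crossings of `D₀` at which
one of the arcs turns, i.e. through which it passes without containing a neighbourhood of the crossing in an edge.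
Then `A i j` differs from the edge `i j` for at most `2 t` pairs `i < j`, and for every `n` each drawing of `K_n` which
contains `D₀` has at least `t` crossings more than some drawing of `K_n` in `S`. In particular, if an optimal drawing
of some `K_n` contains `D₀` then `A i j` is the edge `i j` for all `i ≠ j`.
-/

set_option autoImplicit false

namespace Pool.Agent.Results.MP_8613e3_co.RigidOptimalDrawings

open Pool.HexDraw

theorem result : ∀ (S : Type) [TopologicalSpace S] [T2Space S] (p : ℕ) (D₀ : Drawing S p)
    (A : Fin p → Fin p → Set S), D₀.ArcSystem A →
    {q : Fin p × Fin p | q.1 < q.2 ∧ A q.1 q.2 ≠ D₀.edge q.1 q.2}.ncard ≤ 2 * (D₀.turns A).ncard ∧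
    ∀ (n : ℕ) (D : Drawing S n), D.Contains D₀ →
      (∃ D' : Drawing S n, D'.cr + (D₀.turns A).ncard ≤ D.cr) ∧
      (D.Optimal → ∀ i j, i ≠ j → A i j = D₀.edge i j) :=
  fun _ _ _ _ D₀ A hA => ⟨stability D₀ A hA, fun _ D hc => contains_rigid D₀ A hA D hc⟩

end Pool.Agent.Results.MP_8613e3_co.RigidOptimalDrawings
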