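import Pool.Agent.Lib.MP_8613e3_co_hex.F01

/-!
# Statement (b) is false, so Question 1 is equivalent to statement (a)

There is a drawing `D₀` of `K_6` on the sphere (with 15 crossings) such that every drawing of any
`K_n` which contains `D₀` has at least six crossings more than some other drawing of `K_n`. So no
optimal drawing of any `K_n` contains `D₀`: statement (b) is false. Hence exactly one of (a) and (b)
holds if and only if (a) holds.

Proof: `D₀` has a twisted hexagon, a 6-cycle `e_0, ..., e_5` such that `e_{k-1}` and `e_{k+1}`
cross in a point `P_k` for every `k` and `P_{k-1}` comes before `P_{k+1}` on `e_k`. In a drawing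
of `K_n` with a twisted hexagon every edge `e_k` is replaced by the curve which follows
`e_{k-1}` backwards to `P_k` and then `e_{k+1}` to the end of `e_k`; after smoothing at the six
points `P_k` these curves and the remaining edges form a family of curves, one for each pair of
vertices, with six crossings fewer, and further smoothings turn it into a drawing of `K_n`.
-/

set_option autoImplicit false

namespace Pool.Agent.Results.MP_8613e3_co.StatementBFails

open Pool.HexDraw

theorem result :
    (∃ D₀ : Drawing S2 6, ∀ n, ∀ D : Drawing S2 n, D.Contains D₀ →
      ∃ D' : Drawing S2 n, D'.cr + 6 ≤ D.cr) ∧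
    ¬ StatementB ∧ (Xor StatementA StatementB ↔ StatementA) :=
  ⟨exists_bad, not_B, xor_iff⟩

end Pool.Agent.Results.MP_8613e3_co.StatementBFails
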